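import Pool.Agent.W774.TL.Stm

set_option autoImplicit false

namespace Pool.Agent.W764.TL

open Set Filter Topology
open Pool.Agent.W774.TL

theorem sg_nonneg (y : ℝ) : 0 ≤ sg y := by
  unfold sg
  positivity

/-- the box of level `k` -/
def Box (x p : ℝ → ℝ) (k : ℕ) (N : ℤ) : Prop :=
  |x ((k : ℝ) + 1 / 2) - k * (k + 1 / 2) - N| ≤ 1 / 1000 ∧
    |p ((k : ℝ) + 1 / 2) - 3 ^ k| ≤ 3 ^ k / 1000

theorem step {K0 : ℕ} (h1 : ∀ (k : ℕ), K0 ≤ k → ∀ (N : ℤ) (τ a p : ℝ),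
    (R1 (3 ^ k) τ a p ∨ R3 (3 ^ k) τ a p) →
    |hp (a + k * (τ + (k + 1)) + N) p (τ + (k + 1)) - k - sg (yy (3 ^ k) τ a p)|
        ≤ 1 / ((3 : ℝ) ^ k) ^ 2 ∧
    |fo (a + k * (τ + (k + 1)) + N) p (τ + (k + 1))
        - 3 ^ k * ((1 - sg (yy (3 ^ k) τ a p)) * Co a + 3 * sg (yy (3 ^ k) τ a p) * Co (a - τ))| ≤ 1)
    {G A0 : ℝ} (h2 : ∀ A : ℝ, A0 ≤ A → ∀ a p a' p' : ℝ → ℝ,
      Sys A G a p a' p' (-1 / 2) (1 / 2) →
      |a (-1 / 2)| ≤ 1 / 1000 → |p (-1 / 2) - A| ≤ A / 1000 →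
      (∀ τ ∈ Icc (-1 / 2 : ℝ) (1 / 2), R1 A τ (a τ) (p τ) ∨ R3 A τ (a τ) (p τ)) ∧
      |a (1 / 2) - 1 / 2| ≤ 1 / 1000 ∧ |p (1 / 2) - 3 * A| ≤ 3 * A / 1000)
    {x p g : ℝ → ℝ}
    (hs : ∀ t, HasDerivAt x (hp (x t) (p t) t) t ∧ HasDerivAt p (fo (x t) (p t) t + g t) t ∧
      |g t| ≤ G)
    {k : ℕ} (hk : K0 ≤ k) (hA : A0 ≤ (3 : ℝ) ^ k) {N : ℤ} (hB : Box x p k N) :
    (∀ t ∈ Icc ((k : ℝ) + 1 / 2) (k + 3 / 2), (k : ℝ) - 1 ≤ hp (x t) (p t) t) ∧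
      Box x p (k + 1) (N - (k + 1)) := by
  set a : ℝ → ℝ := fun τ => x (τ + (k + 1)) - k * (τ + (k + 1)) - N with ha
  set pp : ℝ → ℝ := fun τ => p (τ + (k + 1)) with hpp
  have hxa : ∀ τ : ℝ, a τ + k * (τ + (k + 1)) + N = x (τ + (k + 1)) := by
    intro τ
    simp only [ha]
    ring
  have hSys : Sys (3 ^ k) G a pp (fun τ => hp (x (τ + (k + 1))) (p (τ + (k + 1))) (τ + (k + 1)) - k)
      (fun τ => fo (x (τ + (k + 1))) (p (τ + (k + 1))) (τ + (k + 1)) + g (τ + (k + 1)))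
      (-1 / 2) (1 / 2) := by
    intro τ _
    obtain ⟨d1, d2, d3⟩ := hs (τ + (k + 1))
    refine ⟨?_, ?_, ?_⟩
    · have e1 : HasDerivAt (fun s : ℝ => x (s + (k + 1))) _ τ := d1.comp_add_const τ ((k : ℝ) + 1)
      have e2 : HasDerivAt (fun s : ℝ => (k : ℝ) * (s + (k + 1))) ((k : ℝ) * 1) τ :=
        ((hasDerivAt_id τ).add_const _).const_mul _
      have e3 := (e1.sub e2).sub_const (N : ℝ)
      rw [mul_one] at e3
      exact e3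
    · exact d2.comp_add_const τ ((k : ℝ) + 1)
    · intro hR
      obtain ⟨f1, f2⟩ := h1 k hk N τ (a τ) (pp τ) hR
      rw [hxa τ] at f1 f2
      refine ⟨f1, ?_⟩
      have f3 : fo (x (τ + (k + 1))) (p (τ + (k + 1))) (τ + (k + 1)) + g (τ + (k + 1)) -
          3 ^ k * ((1 - sg (yy (3 ^ k) τ (a τ) (pp τ))) * Co (a τ) +
            3 * sg (yy (3 ^ k) τ (a τ) (pp τ)) * Co (a τ - τ)) =
          (fo (x (τ + (k + 1))) (pp τ) (τ + (k + 1)) -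
          3 ^ k * ((1 - sg (yy (3 ^ k) τ (a τ) (pp τ))) * Co (a τ) +
            3 * sg (yy (3 ^ k) τ (a τ) (pp τ)) * Co (a τ - τ))) + g (τ + (k + 1)) := by
        simp only [hpp]
        ring
      rw [f3]
      exact (abs_add_le _ _).trans (add_le_add f2 d3)
  have hm : (-1 / 2 : ℝ) + (k + 1) = k + 1 / 2 := by ring
  have hi1 : |a (-1 / 2)| ≤ 1 / 1000 := by
    have : a (-1 / 2) = x ((k : ℝ) + 1 / 2) - k * (k + 1 / 2) - N := by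
      simp only [ha]
      rw [hm]
    rw [this]
    exact hB.1
  have hi2 : |pp (-1 / 2) - 3 ^ k| ≤ 3 ^ k / 1000 := by
    have : pp (-1 / 2) = p ((k : ℝ) + 1 / 2) := by
      simp only [hpp]
      rw [hm]
    rw [this]
    exact hB.2
  obtain ⟨c1, c2, c3⟩ := h2 (3 ^ k) hA a pp _ _ hSys hi1 hi2
  refine ⟨?_, ?_, ?_⟩
  · intro t ht
    obtain ⟨ht1, ht2⟩ := ht
    have hτ : t - (k + 1) ∈ Icc (-1 / 2 : ℝ) (1 / 2) := by
      constructor <;> linarith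
    obtain ⟨f1, _⟩ := h1 k hk N (t - (k + 1)) _ _ (c1 _ hτ)
    rw [hxa] at f1
    simp only [hpp, sub_add_cancel] at f1
    have hs0 := sg_nonneg (yy (3 ^ k) (t - (k + 1)) (a (t - (k + 1))) (p t))
    have h3 : 1 / ((3 : ℝ) ^ k) ^ 2 ≤ 1 := by
      rw [div_le_one (by positivity)]
      exact one_le_pow₀ (one_le_pow₀ (by norm_num))
    have h4 := (abs_le.1 f1).1
    linarith
  · have hx : (((k + 1 : ℕ) : ℝ)) + 1 / 2 = 1 / 2 + ((k : ℝ) + 1) := by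
      push_cast
      ring
    have : x (((k + 1 : ℕ) : ℝ) + 1 / 2) - ((k + 1 : ℕ) : ℝ) * (((k + 1 : ℕ) : ℝ) + 1 / 2) -
        ((N - (k + 1) : ℤ) : ℝ) = a (1 / 2) - 1 / 2 := by
      rw [hx]
      simp only [ha]
      push_cast
      ring
    rw [this]
    exact c2
  · have hx : (((k + 1 : ℕ) : ℝ)) + 1 / 2 = 1 / 2 + ((k : ℝ) + 1) := by
      push_cast
      ring
    have h5 : p (((k + 1 : ℕ) : ℝ) + 1 / 2) = pp (1 / 2) := by
      rw [hx]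
    rw [h5, pow_succ, mul_comm ((3 : ℝ) ^ k) 3]
    exact c3

theorem core_thm (h1 : P_TWO) (h2 : P_STEP) : P_CORE := by
  intro G hG
  obtain ⟨K0, h1⟩ := h1
  obtain ⟨A0, h2⟩ := h2 G hG
  obtain ⟨m, hm⟩ := pow_unbounded_of_one_lt A0 (by norm_num : (1 : ℝ) < 3)
  refine ⟨max K0 m, ?_⟩
  intro x p g hs N hN1 hN2
  have key : ∀ k : ℕ, max K0 m ≤ k → ∃ N : ℤ, Box x p k N := by
    intro k hk
    induction k, hk using Nat.le_induction with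
    | base => exact ⟨N, hN1, hN2⟩
    | succ k hk ih =>
      obtain ⟨N', hN'⟩ := ih
      exact ⟨_, (step h1 h2 hs ((le_max_left _ _).trans hk)
        (hm.le.trans (pow_le_pow_right₀ (by norm_num) ((le_max_right _ _).trans hk))) hN').2⟩
  intro k hk t ht
  obtain ⟨N', hN'⟩ := key k hk
  exact (step h1 h2 hs ((le_max_left _ _).trans hk)
    (hm.le.trans (pow_le_pow_right₀ (by norm_num) ((le_max_right _ _).trans hk))) hN').1 t ht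

end Pool.Agent.W764.TL
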